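import Pool.Agent.H51.CST.Targets

/-!
# The auxiliary function does not vanish on the curve
-/

open Polynomial

namespace Pool.Agent.H41.CST

open Pool.Agent.H51.CST

noncomputable section

/-- the order of a polynomial as a power series is at most its degree -/
theorem nvr_ord {k : Type} [Field k] (g : k[X]) (hg : g ≠ 0) :
    (g : PowerSeries k).order ≤ (g.natDegree : ℕ) := by
  apply PowerSeries.order_le
  rw [Polynomial.coeff_coe]
  exact fun h => hg (leadingCoeff_eq_zero.1 h)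

theorem nvr_aev {k : Type} [Field k] (mu : k[X][X]) (g : k[X]) :
    aeval (xR mu) g = AdjoinRoot.of mu g := by
  have h : aeval (xR mu) = (AlgHom.restrictScalars k (AdjoinRoot.ofAlgHom k[X] mu) :
      k[X] →ₐ[k] AdjoinRoot mu) := by
    apply Polynomial.algHom_ext
    simp [xR]
  rw [h]
  rfl

theorem nvr_sum {k : Type} [Field k] (mu : k[X][X]) (q A d B : ℕ)
    (a : Fin A × Fin d × Fin B × Fin d → k) :
    AdjoinRoot.mk mu (Phi q a) = ∑ p : Fin B × Fin d, (∑ i : Fin A, ∑ j : Fin d,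
      a (i, j, p.1, p.2) • (xR mu ^ (i : ℕ) * yR mu ^ (j : ℕ))) *
        (xR mu ^ (p.1 : ℕ) * yR mu ^ (p.2 : ℕ)) ^ q := by
  rw [Phi, map_sum, Fintype.sum_prod_type]
  simp_rw [Fintype.sum_prod_type (α₁ := Fin d) (α₂ := Fin B × Fin d)]
  have h1 : ∀ p : Fin B × Fin d, (∑ i : Fin A, ∑ j : Fin d,
      a (i, j, p.1, p.2) • (xR mu ^ (i : ℕ) * yR mu ^ (j : ℕ))) *
        (xR mu ^ (p.1 : ℕ) * yR mu ^ (p.2 : ℕ)) ^ q = ∑ i : Fin A, ∑ j : Fin d,
      (a (i, j, p.1, p.2) • (xR mu ^ (i : ℕ) * yR mu ^ (j : ℕ))) *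
        (xR mu ^ (p.1 : ℕ) * yR mu ^ (p.2 : ℕ)) ^ q := by
    intro p
    rw [Finset.sum_mul]
    apply Finset.sum_congr rfl
    intro i _
    rw [Finset.sum_mul]
  simp_rw [h1]
  symm
  rw [Finset.sum_comm]
  apply Finset.sum_congr rfl
  intro i _
  rw [Finset.sum_comm]
  apply Finset.sum_congr rfl
  intro j _
  apply Finset.sum_congr rfl
  intro p _
  symm
  rw [map_mul, map_pow, AdjoinRoot.mk_C, AdjoinRoot.mk_X, map_mul, map_pow, Algebra.smul_def,
    IsScalarTower.algebraMap_apply k k[X] (AdjoinRoot mu)]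
  change AdjoinRoot.of mu (C (a (i, j, p))) * xR mu ^ _ * yR mu ^ _ =
    AdjoinRoot.of mu (algebraMap k k[X] (a (i, j, p))) * _ * _
  rw [Polynomial.algebraMap_eq]
  ring

/-- coordinates of a combination of the monomials -/
theorem nvr_crd {k : Type} [Field k] {d e : ℕ} (D : Dat k d e) (hCNV : T_CNV) (hd : 1 ≤ d)
    (N : ℕ) (f : Fin N → Fin d → k) (j : Fin d) :
    crd D.monic (∑ i : Fin N, ∑ j : Fin d, f i j • (xR D.mu ^ (i : ℕ) * yR D.mu ^ (j : ℕ))) j =
      ∑ i : Fin N, C (f i j) * X ^ (i : ℕ) := by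
  obtain ⟨c1, c2, c3, c4, c5, c6, c7⟩ := hCNV k d e D hd
  rw [← c6 (fun j => ∑ i : Fin N, C (f i j) * X ^ (i : ℕ)) j]
  congr 1
  rw [Finset.sum_comm]
  apply Finset.sum_congr rfl
  intro j _
  rw [map_sum, Finset.sum_mul]
  apply Finset.sum_congr rfl
  intro i _
  rw [map_mul, map_pow, aeval_X, aeval_C, Algebra.smul_def]
  ring

theorem nvr_zero {k : Type} [Field k] {d e : ℕ} (D : Dat k d e) (hCNV : T_CNV) (hd : 1 ≤ d)
    (N : ℕ) (f : Fin N → Fin d → k)
    (h : ∑ i : Fin N, ∑ j : Fin d, f i j • (xR D.mu ^ (i : ℕ) * yR D.mu ^ (j : ℕ)) = 0)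
    (i : Fin N) (j : Fin d) : f i j = 0 := by
  have h1 := nvr_crd D hCNV hd N f j
  rw [h] at h1
  have h0 : crd D.monic 0 (j : ℕ) = 0 := by
    rw [crd, map_zero, coeff_zero]
  rw [h0] at h1
  have h2 := congrArg (fun p => p.coeff (i : ℕ)) h1
  simp only [coeff_zero, finsetSum_coeff, coeff_C_mul, coeff_X_pow] at h2
  rw [Finset.sum_eq_single i] at h2
  · simpa using h2.symm
  · intro b _ hb
    have : (i : ℕ) ≠ b := fun hh => hb (Fin.ext hh.symm)
    simp [this]
  · intro hh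
    exact absurd (Finset.mem_univ i) hh

theorem nvr_deg {k : Type} [Field k] {d e : ℕ} (D : Dat k d e) (hCNV : T_CNV) (hd : 1 ≤ d)
    (N : ℕ) (f : Fin N → Fin d → k) (j : ℕ) :
    (crd D.monic (∑ i : Fin N, ∑ j : Fin d,
      f i j • (xR D.mu ^ (i : ℕ) * yR D.mu ^ (j : ℕ))) j).natDegree ≤ N := by
  by_cases hj : j < d
  · have h1 := nvr_crd D hCNV hd N f ⟨j, hj⟩
    simp only at h1
    rw [h1]
    apply natDegree_sum_le_of_forall_le
    intro i _
    exact (natDegree_C_mul_X_pow_le _ _).trans i.2.le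
  · obtain ⟨c1, c2, c3, c4, c5, c6, c7⟩ := hCNV k d e D hd
    rw [c2 _ j (not_lt.1 hj), natDegree_zero]
    exact Nat.zero_le _

theorem pf_NVR (hNVL : T_NVL) (hPIG : T_PIG) (hCNV : T_CNV) : T_NVR := by
  intro k _ _ d e D A B φ a hd he hφ ha hlt hzero
  classical
  have := D.dom
  have hφg : ∀ g : k[X], φ (aeval (xR D.mu) g) = (g : PowerSeries k) := by
    intro g
    rw [nvr_aev]
    have : AdjoinRoot.of D.mu g = algebraMap k[X] (AdjoinRoot D.mu) g := rfl
    rw [this, φ.commutes, PowerSeries.algebraMap_apply']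
    ext n
    simp
  have hφs : ∀ (t : k) (v : AdjoinRoot D.mu), φ (t • v) = t • φ v := by
    intro t v
    have h1 : t • v = aeval (xR D.mu) (C t) * v := by
      rw [aeval_C, Algebra.smul_def]
    rw [h1, map_mul, hφg, Polynomial.coe_C, ← PowerSeries.smul_eq_C_mul]
  let φk : AdjoinRoot D.mu →ₗ[k] PowerSeries k :=
    { toFun := φ, map_add' := map_add φ, map_smul' := hφs }
  let w : Fin B × Fin d → AdjoinRoot D.mu := fun p => xR D.mu ^ (p.1 : ℕ) * yR D.mu ^ (p.2 : ℕ)
  let c : Fin B × Fin d → AdjoinRoot D.mu := fun p =>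
    ∑ i : Fin A, ∑ j : Fin d, a (i, j, p.1, p.2) • (xR D.mu ^ (i : ℕ) * yR D.mu ^ (j : ℕ))
  have hsum : AdjoinRoot.mk D.mu (Phi (Nat.card k) a) = ∑ p, c p * w p ^ Nat.card k :=
    nvr_sum D.mu _ A d B a
  have hw : LinearIndependent k w := by
    rw [Fintype.linearIndependent_iff]
    intro g hg p
    rw [Fintype.sum_prod_type] at hg
    exact nvr_zero D hCNV hd B (fun i j => g (i, j)) hg p.1 p.2
  let E : Fin (B * d) ≃ Fin B × Fin d := finProdFinEquiv.symm
  have hw2 : LinearIndependent k (fun i => φk (w (E i))) := by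
    have h1 := hw.comp E E.injective
    exact h1.map' φk (LinearMap.ker_eq_bot.2 hφ)
  have hcomb : ∀ l : Fin (B * d) → k, ∑ i, l i • φk (c (E i)) ≠ 0 →
      (∑ i, l i • φk (c (E i))).order < (Nat.card k : ℕ) := by
    intro l hl
    have h1 : ∑ i, l i • φk (c (E i)) = φ (∑ i, l i • c (E i)) := by
      rw [map_sum]
      apply Finset.sum_congr rfl
      intro i _
      exact (hφs _ _).symm
    rw [h1] at hl ⊢
    set v : AdjoinRoot D.mu := ∑ i, l i • c (E i) with hv
    have hv0 : v ≠ 0 := fun h => hl (by rw [h, map_zero])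
    have h2 : v = ∑ i : Fin A, ∑ j : Fin d,
        (∑ s, l s * a (i, j, (E s).1, (E s).2)) • (xR D.mu ^ (i : ℕ) * yR D.mu ^ (j : ℕ)) := by
      rw [hv]
      simp only [c, Finset.smul_sum, Finset.sum_smul, mul_smul]
      rw [Finset.sum_comm]
      apply Finset.sum_congr rfl
      intro i _
      rw [Finset.sum_comm]
    have h3 : ∀ j, (crd D.monic v j).natDegree ≤ A := by
      intro j
      rw [h2]
      exact nvr_deg D hCNV hd A (fun i j => ∑ s, l s * a (i, j, (E s).1, (E s).2)) j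
    obtain ⟨b, g, hb0, hb1, hg0, hg1, hg2⟩ := hPIG k d e D A v hd he h3 hv0
    have h4 : φ v * φ b = (g : PowerSeries k) := by
      rw [← map_mul, hg2, hφg]
    have h5 : (φ v).order ≤ (g : PowerSeries k).order := by
      rw [← h4, PowerSeries.order_mul]
      exact le_self_add
    refine lt_of_le_of_lt (h5.trans (nvr_ord g hg0)) ?_
    exact_mod_cast lt_of_le_of_lt hg1 hlt
  have hz : ∑ i, φk (c (E i)) * φk (w (E i)) ^ Nat.card k = 0 := by
    have h1 := congrArg φ hzero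
    rw [hsum, map_zero, map_sum] at h1
    rw [← h1, ← E.sum_comp]
    apply Finset.sum_congr rfl
    intro i _
    change φ (c (E i)) * φ (w (E i)) ^ Nat.card k = φ (c (E i) * w (E i) ^ Nat.card k)
    exact ((map_mul φ _ _).trans (congrArg _ (map_pow φ _ _))).symm
  have hfin := hNVL k (B * d) (fun i => φk (w (E i))) (fun i => φk (c (E i))) hw2 hcomb hz
  apply ha
  funext s
  obtain ⟨i, j, p⟩ := s
  have h1 := hfin (E.symm p)
  simp only [Equiv.apply_symm_apply] at h1
  have h2 : c p = 0 := by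
    apply hφ
    rw [map_zero]
    exact h1
  exact nvr_zero D hCNV hd A (fun i j => a (i, j, p.1, p.2)) h2 i j

end

end Pool.Agent.H41.CST
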