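import Pool.Agent.H51.CST.Targets

/-!
# The auxiliary function vanishes above the points with no rational point
-/

open Polynomial

namespace Pool.Agent.H41.CST

open Pool.Agent.H51.CST

noncomputable section

/-- an element of an extension fixed by the Frobenius power is in the finite base field -/
theorem zer_fix {k K : Type} [Field k] [Finite k] [Field K] [Algebra k K] (β : K)
    (h : β ^ Nat.card k = β) : ∃ y : k, algebraMap k K y = β := by
  classical
  have : Fintype k := Fintype.ofFinite k
  have hc : Nat.card k = Fintype.card k := Nat.card_eq_fintype_card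
  rw [hc] at h
  have hne : (X ^ Fintype.card k - X : k[X]) ≠ 0 :=
    FiniteField.X_pow_card_sub_X_ne_zero k Fintype.one_lt_card
  have hs : (X ^ Fintype.card k - X : k[X]).Splits := by
    rw [splits_iff_card_roots, FiniteField.roots_X_pow_card_sub_X,
      FiniteField.X_pow_card_sub_X_natDegree_eq k Fintype.one_lt_card]
    rfl
  have := hs.mem_range_of_isRoot hne (i := algebraMap k K) (x := β) (by
    simp [IsRoot.def, h])
  exact this

/-- divisibility after a translation -/
theorem zer_dvd {k K : Type} [Field k] [Field K] [Algebra k K] (f : k[X]) (x0 : k) (M : ℕ)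
    (h : X ^ M ∣ (aeval (C (algebraMap k K x0) + X : K[X])) f) : (X - C x0) ^ M ∣ f := by
  rw [← map_dvd_map' (algebraMap k K)]
  have h1 : (aeval (C (algebraMap k K x0) + X : K[X])) f =
      (f.map (algebraMap k K)).comp (C (algebraMap k K x0) + X) := by
    rw [comp, eval₂_map, aeval_def]
    rfl
  rw [h1] at h
  have h2 := map_dvd (compRingHom (X - C (algebraMap k K x0))) h
  rw [map_pow] at h2
  simp only [coe_compRingHom_apply, X_comp, comp_assoc, add_comp, C_comp] at h2
  have h3 : (C (algebraMap k K x0) + (X - C (algebraMap k K x0)) : K[X]) = X := by ring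
  rw [h3, comp_X] at h2
  simpa using h2

theorem pf_ZER (hVDM : T_VDM) (hZE1 : T_ZE1) : T_ZER := by
  intro k _ _ d e D Del V r M A B a x0 hd he hM hV hr0 hrX hPsi hDel hno
  classical
  obtain ⟨mu, hmon, hdeg, hbd, hdom⟩ := D
  simp only at *
  let K := AlgebraicClosure k
  set m : K[X] := (at0 mu x0).map (algebraMap k K) with hm
  have hm_mon : m.Monic := (hmon.map _).map _
  have hm_deg : m.natDegree = d := by
    rw [hm, at0, (hmon.map _).natDegree_map, hmon.natDegree_map, hdeg]
  have hm0 : m ≠ 0 := hm_mon.ne_zero
  let i : k[X] →+* K := (algebraMap k K).comp (evalRingHom x0)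
  have hmi : mu.map i = m := by
    rw [hm, at0, Polynomial.map_map]
  -- the roots are simple
  have hsimple : ∀ β ∈ m.roots, (derivative m).eval β ≠ 0 := by
    intro β hβ h0
    have hβ0 : m.eval β = 0 := by
      have := (mem_roots hm0).1 hβ
      exact this
    have hβ1 : mu.eval₂ i β = 0 := by
      rw [← eval_map, hmi, hβ0]
    let θ : AdjoinRoot mu →+* K := AdjoinRoot.lift i β hβ1
    have h1 := congrArg θ hV
    rw [map_mul] at h1
    have h2 : θ (aeval (yR mu) (derivative mu)) = (derivative m).eval β := by
      rw [aeval_def, hom_eval₂, yR, ← hmi, derivative_map, eval_map]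
      have e1 : θ.comp (algebraMap k[X] (AdjoinRoot mu)) = i := by
        apply RingHom.ext
        intro z
        change θ (AdjoinRoot.of mu z) = i z
        exact AdjoinRoot.lift_of hβ1
      have e2 : θ (AdjoinRoot.root mu) = β := AdjoinRoot.lift_root hβ1
      rw [e1, e2]
    have h3 : θ (aeval (xR mu) Del) = algebraMap k K (Del.eval x0) := by
      rw [aeval_def, hom_eval₂]
      have e1 : θ.comp (algebraMap k (AdjoinRoot mu)) = algebraMap k K := by
        apply RingHom.ext
        intro z
        change θ (algebraMap k (AdjoinRoot mu) z) = _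
        rw [IsScalarTower.algebraMap_apply k k[X] (AdjoinRoot mu)]
        change θ (AdjoinRoot.of mu (algebraMap k k[X] z)) = _
        rw [AdjoinRoot.lift_of hβ1]
        simp [i]
      have e2 : θ (xR mu) = algebraMap k K x0 := by
        rw [xR, AdjoinRoot.lift_of hβ1]
        simp [i]
      rw [e1, e2, ← aeval_def, aeval_algebraMap_apply]
      simp
    rw [h2, h3, h0, mul_zero] at h1
    exact hDel ((map_eq_zero (algebraMap k K)).1 h1.symm)
  have hnd : m.roots.Nodup := by
    rw [Multiset.nodup_iff_count_le_one]
    intro β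
    by_cases hβ : β ∈ m.roots
    · rw [count_roots]
      by_contra hcon
      push Not at hcon
      have := (one_lt_rootMultiplicity_iff_isRoot hm0).1 hcon
      exact hsimple β hβ this.2
    · rw [Multiset.count_eq_zero_of_notMem hβ]
      exact Nat.zero_le _
  have hcard : m.roots.toFinset.card = d := by
    rw [Multiset.toFinset_card_of_nodup hnd, ← hm_deg]
    exact (splits_iff_card_roots.1 (IsAlgClosed.splits m))
  have hfix : ∀ β ∈ m.roots, β ^ Nat.card k ≠ β := by
    intro β hβ h
    obtain ⟨y, hy⟩ := zer_fix β h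
    apply hno y
    have hβ0 : m.eval β = 0 := (mem_roots hm0).1 hβ
    rw [hm, ← hy, eval_map_algebraMap, aeval_algebraMap_apply] at hβ0
    have := (map_eq_zero (algebraMap k K)).1 hβ0
    simpa using this
  have hroot : ∀ β ∈ m.roots, aeval β (at0 mu x0) = 0 := by
    intro β hβ
    have hβ0 : m.eval β = 0 := (mem_roots hm0).1 hβ
    rwa [hm, eval_map_algebraMap] at hβ0
  have hZ := fun β (hβ : β ∈ m.roots) => hZE1 k K d e ⟨mu, hmon, hdeg, hbd, hdom⟩ Del r M A B a
    x0 β hd he hM hr0 hrX hPsi hDel (hroot β hβ) (hfix β hβ)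
  simp only at hZ
  choose! r0 hr00 hr01 using hZ
  set P : K[X][X] := ((Phi (Nat.card k) a %ₘ mu).map
      (aeval (C (algebraMap k K x0) + X : K[X]) : k[X] →ₐ[k] K[X]).toRingHom) with hP
  have hmu1 : mu ≠ 1 := by
    intro h
    rw [h, natDegree_one] at hdeg
    omega
  have hPdeg : P.natDegree < m.roots.toFinset.card := by
    rw [hcard]
    refine lt_of_le_of_lt (natDegree_map_le) ?_
    exact (natDegree_modByMonic_lt _ hmon hmu1).trans_eq hdeg
  have hV2 := hVDM K P M m.roots.toFinset r0 hPdeg
    (fun b hb => hr00 b (Multiset.mem_toFinset.1 hb))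
    (fun b hb => hr01 b (Multiset.mem_toFinset.1 hb))
  intro j
  have h4 := hV2 j
  rw [hP, coeff_map] at h4
  exact zer_dvd (K := K) _ x0 M h4

end

end Pool.Agent.H41.CST
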